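import Pool.Agent.H20.NLTree

namespace Pool.Agent.Results.MP_16ddc9_co.MaxDegree
open Pool.Agent.H20

theorem result (k : ℕ) (hk : 2 ≤ k) (n : ℕ) (T : SimpleGraph (Fin n)) [DecidableRel T.Adj]
    (hT : T.IsTree) (hchi : chiNL T = k) : T.maxDegree ≤ (k - 1) ^ 2 := by
  have hne : {k | ∃ c, IsNL T k c}.Nonempty := Nat.nonempty_of_pos_sInf (by
    unfold chiNL at hchi
    omega)
  have hm := Nat.sInf_mem hne
  unfold chiNL at hchi
  rw [hchi] at hm
  obtain ⟨c, hc⟩ := hm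
  exact T.maxDegree_le_of_forall_degree_le _ fun v => NLTree.deg_le hT hc v

end Pool.Agent.Results.MP_16ddc9_co.MaxDegree
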